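import Pool.Agent.P.MP_f04817_lc.Cm.All
import Pool.Agent.P.MP_f04817_lc.Ed.TREG
import Pool.Agent.P.MP_f04817_lc.Cm.Per

/-! The words outside a subgroup of a finitely generated group form an EDT0L language exactly when
the subgroup has finite index. -/

set_option autoImplicit false

namespace Pool.Agent.Results.MP_f04817_lc.CoMember

open Pool.Agent.P.MP_f04817_lc

theorem result (G : Type) [Group G] (X : Finset G) (hX : Subgroup.closure (X : Set G) = ⊤)
    (P : Subgroup G) :
    (∃ (V : Type) (_ : Finite V) (ι : X × Bool ↪ V) (ω : FreeMonoid V)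
        (H : Finset (Monoid.End (FreeMonoid V))), ∀ w : FreeMonoid (X × Bool),
        FreeMonoid.lift (fun p : X × Bool => if p.2 = true then (p.1 : G) else (p.1 : G)⁻¹) w ∉ P ↔
          ∃ φ ∈ Submonoid.closure (H : Set (Monoid.End (FreeMonoid V))),
            φ ω = FreeMonoid.map ι w) ↔ P.FiniteIndex := by
  classical
  refine ⟨fun h => ?_, fun h => ?_⟩
  swap
  · have e : (QuotientGroup.mk' P.normalCore) ⁻¹' {c | c ∉ P.map (QuotientGroup.mk' P.normalCore)} =
        {g | g ∉ P} := by
      ext g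
      have := SetLike.ext_iff.1 (Subgroup.comap_map_eq_self (f := QuotientGroup.mk' P.normalCore)
        (H := P) (by rw [QuotientGroup.ker_mk']; exact P.normalCore_le)) g
      exact not_congr this
    have := Ed.p_REG (X × Bool) G (G ⧸ P.normalCore)
      (fun p : X × Bool => if p.2 = true then (p.1 : G) else (p.1 : G)⁻¹)
      (QuotientGroup.mk' P.normalCore) {c | c ∉ P.map (QuotientGroup.mk' P.normalCore)}
    rw [e] at this
    exact this
  have tor : Co.Rad P := fun g => by
    obtain ⟨δ, h1, h2⟩ := Co.perP G X hX P {g | g ∉ P} rfl h g 1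
    have h3 := (h2 0).2
    simp only [zpow_zero, mul_one, one_mul, zero_add, Set.mem_ofPred_eq] at h3
    obtain ⟨n, rfl⟩ := Int.eq_ofNat_of_zero_le h1.le
    exact ⟨n, by exact_mod_cast h1, by_contra fun c => h3 (by rwa [zpow_natCast]) P.one_mem⟩
  set π : X × Bool → G := fun p => if p.2 = true then (p.1 : G) else (p.1 : G)⁻¹ with hπ
  rcases X.eq_empty_or_nonempty with rfl | ⟨x, hx⟩
  · rw [Finset.coe_empty, Subgroup.closure_empty] at hX
    have h1 : ∀ a : G, a = 1 := fun a => Subgroup.mem_bot.1 (hX ▸ Subgroup.mem_top a)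
    have : Subsingleton G := ⟨fun a b => (h1 a).trans (h1 b).symm⟩
    infer_instance
  refine Co.a_mainP (X × Bool) G P tor π (⟨x, hx⟩, true) (⟨x, hx⟩, false) (by simp) (by simp [hπ])
    (fun ⟨p, b⟩ => ⟨(p, !b), by cases b <;> simp [hπ]⟩) ?_ (Ed.p_CONV _ G {g | g ∉ P} π h)
  rw [eq_top_iff, ← Subgroup.top_toSubmonoid, ← hX, Subgroup.closure_toSubmonoid]
  refine Submonoid.closure_mono ?_
  rintro y (hy | hy)
  · exact ⟨(⟨y, hy⟩, true), by simp [hπ]⟩
  · exact ⟨(⟨y⁻¹, hy⟩, false), by simp [hπ]⟩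

end Pool.Agent.Results.MP_f04817_lc.CoMember
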